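import Pool.Agent.helper53.ORT.Spec

/-!
# Row ort:SE
-/

set_option autoImplicit false

namespace Pool.Agent.ORT

open Module Pool.Agent.GS

theorem SE_decomp {F V : Type} [Field F] [AddCommGroup V] [Module F V]
    (B : LinearMap.BilinForm F V) (hB : Sym B) {e f : V} (he : B e e = 0) (hf : B f f = 0)
    (hef : B e f = 1) (v : V) :
    ∃ g, B e g = 0 ∧ B f g = 0 ∧ v = (B v f) • e + (B v e) • f + g := by
  have hfe : B f e = 1 := by rw [hB.symm]; exact hef
  refine ⟨v - (B v f) • e - (B v e) • f, ?_, ?_, by abel⟩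
  · simp only [map_sub, map_smul, smul_eq_mul, he, hef, mul_zero, mul_one, sub_zero]
    rw [hB.symm e v, sub_self]
  · simp only [map_sub, map_smul, smul_eq_mul, hf, hfe, mul_zero, mul_one, sub_zero]
    rw [hB.symm f v, sub_self]

theorem SE_key {F V : Type} [Field F] [AddCommGroup V] [Module F V]
    (B : LinearMap.BilinForm F V) (h2 : (2 : F) ≠ 0) (hB : Sym B) {e f : V} (he : B e e = 0)
    (hf : B f f = 0) (hef : B e f = 1) {y : Equiv.Perm V} (hy : Lin F y)
    (hs : ∀ v, B v v = 0 → ∃ c : F, y v = c • v) {l l' : F} (hl : y e = l • e)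
    (hl' : y f = l' • f) {g : V} (h1 : B e g = 0) (h3 : B f g = 0) (hg : g ≠ 0) :
    y g = l • g ∧ (B g g ≠ 0 → l' = l) := by
  have hfe : B f e = 1 := by rw [hB.symm]; exact hef
  have hge : B g e = 0 := by rw [hB.symm]; exact h1
  have hgf : B g f = 0 := by rw [hB.symm]; exact h3
  obtain ⟨c, hc⟩ : ∃ c : F, c = B g g / 2 := ⟨_, rfl⟩
  have hc2 : 2 * c = B g g := by rw [hc]; field_simp
  have hx : B (e + g - c • f) (e + g - c • f) = 0 := by
    simp only [map_add, map_sub, map_smul, LinearMap.add_apply, LinearMap.sub_apply,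
      LinearMap.smul_apply, smul_eq_mul, he, hf, hef, hfe, h1, h3, hge, hgf]
    linear_combination -hc2
  have hx' : B (e - g - c • f) (e - g - c • f) = 0 := by
    simp only [map_sub, map_smul, LinearMap.sub_apply,
      LinearMap.smul_apply, smul_eq_mul, he, hf, hef, hfe, h1, h3, hge, hgf]
    linear_combination -hc2
  obtain ⟨a, ha⟩ := hs _ hx
  obtain ⟨a', ha'⟩ := hs _ hx'
  have hsum : y ((e + g - c • f) + (e - g - c • f)) = (2 * l) • e - (2 * c * l') • f := by
    have e1 : (e + g - c • f) + (e - g - c • f) = (2 : F) • e + (-(2 * c)) • f := by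
      module
    rw [e1, hy.1, hy.2, hy.2, hl, hl']
    module
  rw [hy.1, ha, ha'] at hsum
  have k1 := congrArg (fun v => B v f) hsum
  have k2 := congrArg (fun v => B v e) hsum
  simp only [map_add, map_sub, map_smul, LinearMap.add_apply, LinearMap.sub_apply,
    LinearMap.smul_apply, smul_eq_mul, he, hf, hef, hfe, hge, hgf] at k1 k2
  have k3 : (a - a') • g = 0 := by
    have e2 : a • (e + g - c • f) + a' • (e - g - c • f) =
        (a + a') • e + (a - a') • g - (c * (a + a')) • f := by module
    rw [e2] at hsum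
    have e3 : a + a' = 2 * l := by linear_combination k1
    have e4 : c * (a + a') = 2 * c * l' := by linear_combination -k2
    rw [e4, e3] at hsum
    have e5 : (a - a') • g = ((2 * l) • e - (2 * c * l') • f) - (2 * l) • e + (2 * c * l') • f := by
      rw [← hsum]
      module
    rw [e5]
    module
  have k4 : a = a' := by
    rcases smul_eq_zero.1 k3 with h | h
    · exact sub_eq_zero.1 h
    · exact absurd h hg
  have k5 : a = l := by
    have : 2 * (a - l) = 0 := by rw [← k4] at k1; linear_combination k1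
    rcases mul_eq_zero.1 this with h | h
    · exact absurd h h2
    · exact sub_eq_zero.1 h
  have k6 : c * l' = c * l := by
    have : 2 * (c * l' - c * l) = 0 := by rw [← k4, k5] at k2; linear_combination k2
    rcases mul_eq_zero.1 this with h | h
    · exact absurd h h2
    · exact sub_eq_zero.1 h
  constructor
  · have e6 : y (e + g - c • f) = y e + y g - c • y f := by
      rw [sub_eq_add_neg, hy.1, hy.1, ← neg_smul, hy.2, neg_smul, ← sub_eq_add_neg]
    rw [ha, hl, hl', k5] at e6
    have e7 : y g = l • (e + g - c • f) - l • e + (c * l') • f := by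
      rw [e6]
      module
    rw [e7, k6]
    module
  · intro hgg
    have hc0 : c ≠ 0 := by
      intro h0
      rw [h0, mul_zero] at hc2
      exact hgg hc2.symm
    exact mul_left_cancel₀ hc0 k6

theorem SE (cw : GS.CW_stmt) : SE_stmt := by
  intro F V _ _ _ _ _ B hch hB hdim y hy hs
  have h2 : (2 : F) ≠ 0 := Ring.two_ne_zero hch
  obtain ⟨e, he0, he⟩ := (cw B hdim).1
  obtain ⟨w, hw⟩ : ∃ w, B e w ≠ 0 := by
    by_contra hcon
    push Not at hcon
    exact he0 (hB.nd e hcon)
  obtain ⟨w', hw'⟩ : ∃ w', B e w' = 1 := by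
    refine ⟨(B e w)⁻¹ • w, ?_⟩
    rw [map_smul, smul_eq_mul, inv_mul_cancel₀ hw]
  obtain ⟨f, hf, hef⟩ : ∃ f, B f f = 0 ∧ B e f = 1 := by
    refine ⟨w' - (B w' w' / 2) • e, ?_, ?_⟩
    · simp only [map_sub, map_smul, LinearMap.sub_apply, LinearMap.smul_apply, smul_eq_mul, he]
      rw [hB.symm w' e, hw']
      field_simp
      ring
    · rw [map_sub, map_smul, smul_eq_mul, he, mul_zero, sub_zero, hw']
  obtain ⟨l, hl⟩ := hs e he
  obtain ⟨l', hl'⟩ := hs f hf
  have key := fun (g : V) (h1 : B e g = 0) (h3 : B f g = 0) (hg : g ≠ 0) =>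
    SE_key B h2 hB he hf hef hy hs hl hl' h1 h3 hg
  obtain ⟨g, hg1, hg3, hgg⟩ : ∃ g, B e g = 0 ∧ B f g = 0 ∧ B g g ≠ 0 := by
    by_contra hcon
    push Not at hcon
    have hzero : ∀ g, B e g = 0 → B f g = 0 → g = 0 := by
      intro g h1 h3
      refine hB.nd g fun v => ?_
      obtain ⟨g', h1', h3', hv⟩ := SE_decomp B hB he hf hef v
      have hp : B g g' = 0 := by
        have q1 := hcon (g + g') (by rw [map_add, h1, h1', add_zero])
          (by rw [map_add, h3, h3', add_zero])
        simp only [map_add, LinearMap.add_apply] at q1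
        rw [hcon g h1 h3, hcon g' h1' h3', hB.symm g' g] at q1
        have q2 : 2 * B g g' = 0 := by linear_combination q1
        rcases mul_eq_zero.1 q2 with h | h
        · exact absurd h h2
        · exact h
      rw [hv]
      simp only [map_add, map_smul, smul_eq_mul]
      rw [hB.symm g e, hB.symm g f, h1, h3, hp]
      ring
    have htop : Submodule.span F ({e, f} : Set V) = ⊤ := by
      rw [eq_top_iff]
      intro v _
      obtain ⟨g', h1', h3', hv⟩ := SE_decomp B hB he hf hef v
      rw [hzero g' h1' h3', add_zero] at hv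
      rw [hv]
      exact Submodule.add_mem _ (Submodule.smul_mem _ _ (Submodule.subset_span (by simp)))
        (Submodule.smul_mem _ _ (Submodule.subset_span (by simp)))
    have h4 : finrank F V ≤ 2 := by
      rw [← finrank_top F V, ← htop]
      classical
      have h6 : (({e, f} : Finset V) : Set V) = {e, f} := by simp
      have h7 := finrank_span_finset_le_card (R := F) ({e, f} : Finset V)
      rw [h6] at h7
      exact h7.trans Finset.card_le_two
    omega
  have hg0 : g ≠ 0 := by
    rintro rfl
    exact hgg (by rw [map_zero])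
  have hll : l' = l := (key g hg1 hg3 hg0).2 hgg
  refine ⟨l, fun v => ?_⟩
  obtain ⟨g', h1', h3', hv⟩ := SE_decomp B hB he hf hef v
  have hg' : y g' = l • g' := by
    by_cases h0 : g' = 0
    · rw [h0, smul_zero]
      have := hy.2 0 (0 : V)
      rwa [zero_smul, zero_smul] at this
    · exact (key g' h1' h3' h0).1
  have e1 : y v = (B v f) • y e + (B v e) • y f + y g' := by
    conv_lhs => rw [hv]
    rw [hy.1, hy.1, hy.2, hy.2]
  rw [e1, hl, hl', hll, hg']
  conv_rhs => rw [hv]
  module

end Pool.Agent.ORT
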